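import Mathlib
import Pool.Agent.Lib.helper22.H10d

namespace Pool.Agent.H.MP_cbaa56_al

open List

variable {A : Type} (w : List A)

abbrev cg : Con (FreeMonoid A) := conGen fun x y : FreeMonoid A => x = FreeMonoid.ofList w ∧ y = 1
abbrev Mo := (cg w).Quotient
def mk (u : List A) : Mo w := (cg w).mk' (FreeMonoid.ofList u)

theorem mk_append (u v : List A) : mk w (u ++ v) = mk w u * mk w v := rfl
theorem mk_w : mk w w = 1 := (Con.eq _).2 (.of _ _ ⟨rfl, rfl⟩)
theorem mk_surj (x : Mo w) : ∃ u, mk w u = x := Con.mk'_surjective x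
theorem mk_rep (u : List A) (k : ℕ) : mk w (replicate k u).flatten = mk w u ^ k := by
  induction k with
  | zero => rfl
  | succ k ih => rw [pow_succ', ← ih]; rfl

open Classical in
noncomputable def push (s : List A) (x : A) : List A := if h : w <:+ s ++ [x] then h.choose else s ++ [x]

inductive Rw : List A → Prop
  | nil : Rw []
  | app {x p s} : Rw x → p ++ s = w → s ≠ [] → Rw (x ++ p)

variable {w}

theorem Rw.append {x y} (h : Rw w x) (k : Rw w y) : Rw w (x ++ y) := by
  induction k with
  | nil => simpa
  | app _ e n ih => simpa using ih.app e n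

theorem Rw.pow {x} (h : Rw w x) (k : ℕ) : Rw w (replicate k x).flatten := by
  induction k with
  | zero => exact .nil
  | succ k ih => exact h.append ih

theorem Rw.rinv {x} (h : Rw w x) : ∃ y, mk w x * y = 1 := by
  induction h with
  | nil => exact ⟨1, rfl⟩
  | @app x p s _ e _ ih =>
    obtain ⟨y, h⟩ := ih
    exact ⟨mk w s * y, by rw [mk_append, mul_assoc, ← mul_assoc (mk w p), ← mk_append, e, mk_w, one_mul, h]⟩

theorem Rw.drop {y} (h : Rw w y) {s x} (e : y = s ++ [x]) : Rw w s := by
  induction h with
  | nil => simp at e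
  | @app y p t h k n ih =>
    rcases eq_nil_or_concat p with rfl | ⟨q, z, rfl⟩
    · exact ih (by simpa using e)
    · obtain ⟨rfl, -⟩ : y ++ q = s ∧ z = x := by simpa [← append_assoc] using e
      exact h.app (s := z :: t) (by simpa using k) (by simp)

theorem mk_fold (u s : List A) : mk w (u.foldl (push w) s) = mk w s * mk w u := by
  induction u generalizing s with
  | nil => exact (mul_one _).symm
  | cons x u ih =>
    rw [foldl_cons, ih, show mk w (x :: u) = mk w [x] * mk w u from rfl, ← mul_assoc, ← mk_append w s, push]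
    split_ifs with h
    · have k := congrArg (mk w) h.choose_spec
      rw [← k, mk_append, mk_w, mul_one]
    · rfl

variable (hw : ¬ ∃ u v x : List A, u ≠ [] ∧ v ≠ [] ∧ x ≠ [] ∧ w = u ++ v ∧ w = x ++ u) (h0 : w ≠ [])
include hw

theorem fold_pre {p t} (e : p ++ t = w) (n : t ≠ []) (s : List A) : p.foldl (push w) s = s ++ p := by
  induction p using reverseRecOn generalizing t with
  | nil => simp
  | append_singleton p x ih =>
    rw [foldl_concat, ih (t := x :: t) (by simpa using e) (by simp), push, dif_neg, append_assoc]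
    intro h
    have l : (p ++ [x]).length < w.length := by simp [← e, length_pos_iff, n]
    obtain ⟨z, hz⟩ := suffix_of_suffix_length_le (by simp) h l.le
    exact hw ⟨p ++ [x], t, z, by simp, n, by rintro rfl; simp [← hz] at l, e.symm, hz.symm⟩

theorem Rw.fold {x} (h : Rw w x) (s : List A) : x.foldl (push w) s = s ++ x := by
  induction h with
  | nil => simp
  | app _ e n ih => rw [foldl_append, ih, fold_pre hw e n, append_assoc]

include h0

theorem fold_eq {u v : List A} (h : mk w u = mk w v) (s : List A) : u.foldl (push w) s = v.foldl (push w) s := by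
  have : ∀ u v : FreeMonoid A, ConGen.Rel (fun x y => x = FreeMonoid.ofList w ∧ y = 1) u v →
      ∀ s, u.toList.foldl (push w) s = v.toList.foldl (push w) s := fun u v h => by
    induction h with
    | of u v h =>
      rw [h.1, h.2]
      intro s
      obtain ⟨p, x, e⟩ := (eq_nil_or_concat w).resolve_left h0
      have k : w <:+ s ++ p ++ [x] := ⟨s, by simp [e]⟩
      have := k.choose_spec
      have q : w.foldl (push w) s = push w (s ++ p) x := by
        rw [← fold_pre hw (p := p) (t := [x]) (by simp [e]) (by simp), ← foldl_concat (push w), ← concat_eq_append, ← e]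
      rw [FreeMonoid.toList_ofList, q, push, dif_pos k]
      exact append_cancel_right (this.trans (by simp [e] : _ = s ++ w))
    | refl => exact fun _ => rfl
    | symm _ i => exact fun s => (i s).symm
    | trans _ _ i j => exact fun s => (i s).trans (j s)
    | mul _ _ i j => exact fun s => by simp only [FreeMonoid.toList_mul, foldl_append, i, j]
  exact this _ _ ((Con.eq _).1 h) s

theorem Rw.inj {x y} (h : Rw w x) (k : Rw w y) (e : mk w x = mk w y) : x = y := by
  simpa [h.fold hw, k.fold hw] using fold_eq hw h0 e []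

theorem rw_of {x y : Mo w} (h : x * y = 1) : ∃ u, Rw w u ∧ mk w u = x := by
  obtain ⟨u, rfl⟩ := mk_surj w x
  obtain ⟨v, rfl⟩ := mk_surj w y
  refine ⟨u.foldl (push w) [], ?_, (mk_fold ..).trans (one_mul _)⟩
  have : Rw w (v.foldl (push w) (u.foldl (push w) [])) := by
    rw [← foldl_append, fold_eq hw h0 (u := u ++ v) (v := []) h]
    exact .nil
  generalize u.foldl (push w) [] = s at this
  clear h
  induction v generalizing s with
  | nil => exact this
  | cons x v ih =>
    replace this := ih _ this
    unfold push at this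
    split_ifs at this with h
    · obtain ⟨p, z, e⟩ := (eq_nil_or_concat w).resolve_left h0
      have k := h.choose_spec
      generalize h.choose = t at this k
      obtain ⟨rfl, -⟩ : t ++ p = s ∧ z = x := by simpa [e, ← append_assoc] using k
      exact this.app (s := [z]) (by simp [e]) (by simp)
    · exact this.drop rfl

theorem unit_eq (x : (Mo w)ˣ) : x = 1 := by
  obtain ⟨u, h, a⟩ := rw_of hw h0 x.mul_inv
  obtain ⟨v, k, b⟩ := rw_of hw h0 x.inv_mul
  have := (h.append k).inj hw h0 .nil (by rw [mk_append, a, b, x.mul_inv]; rfl)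
  obtain rfl := (append_eq_nil_iff.1 this).1
  exact Units.ext a.symm

theorem pow_iff {U : List A} (hU : Rw w U) (n : U ≠ []) (h : ∀ i < U.length, U.take i ++ U = U ++ U.take i → i = 0) (x : Mo w) :
    (∃ y, x * y = 1 ∧ x * mk w U = mk w U * x) ↔ ∃ k, x = mk w U ^ k := by
  constructor
  · rintro ⟨y, a, b⟩
    obtain ⟨v, k, rfl⟩ := rw_of hw h0 a
    obtain ⟨j, rfl⟩ := Lib.H10.comm_pow n h v ((k.append hU).inj hw h0 (hU.append k) b)
    exact ⟨j, mk_rep ..⟩
  · rintro ⟨k, rfl⟩
    obtain ⟨y, e⟩ := (hU.pow k).rinv
    exact ⟨y, by rwa [← mk_rep], (pow_mul_comm' ..)⟩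

end Pool.Agent.H.MP_cbaa56_al
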