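import Mathlib
import Pool.Agent.H.MP_cbaa56_al.A

namespace Pool.Agent.H.MP_cbaa56_al

open Pool.Agent.Lib.H10 Matrix

section
variable {M : Type} [Monoid M]

def Ri (x : M) : Prop := ∃ y, x * y = 1
def Cj (s e : M) : Prop := ∃ x x' y, x * y = 1 ∧ x' * y = 1 ∧ s * x' = x * e
def Dq (s e : M) : Prop := ∀ p q, Ri p → Ri q → Cj (p * s * q) (p * e * q)

theorem Ri.one : Ri (1 : M) := ⟨1, mul_one _⟩
theorem Ri.mul {x y : M} : Ri x → Ri y → Ri (x * y)
  | ⟨a, h⟩, ⟨b, k⟩ => ⟨b * a, by rw [mul_assoc, ← mul_assoc y, k, one_mul, h]⟩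
theorem Ri.pow {x : M} (h : Ri x) (k : ℕ) : Ri (x ^ k) := by
  induction k with
  | zero => simpa using Ri.one
  | succ k ih => simpa [pow_succ] using ih.mul h

theorem Dq.refl (s : M) : Dq s s := fun _ _ _ _ => ⟨1, 1, 1, by simp⟩
theorem Dq.trans {s e g : M} (h : Dq s e) (k : Dq e g) : Dq s g := fun p q a b => by
  obtain ⟨x, x', y, h1, h2, h3⟩ := h p q a b
  obtain ⟨z, z', t, k1, k2, k3⟩ := k p q a b
  refine ⟨x * z, x' * z', t * y, ?_, ?_, by rw [← mul_assoc, h3, mul_assoc, k3, mul_assoc x]⟩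
  · rw [mul_assoc, ← mul_assoc z, k1, one_mul, h1]
  · rw [mul_assoc, ← mul_assoc z', k2, one_mul, h2]
theorem Dq.ctx {s e p q : M} (h : Dq s e) (a : Ri p) (b : Ri q) : Dq (p * s * q) (p * e * q) := fun p' q' a' b' => by
  simpa only [mul_assoc] using h _ _ (a'.mul a) (b.mul b')
theorem Dq.of {s e y : M} (h : s * y = 1) (k : e * y = 1) : Dq s e := fun p q ⟨a, ha⟩ ⟨b, hb⟩ =>
  have : ∀ s, s * y = 1 → p * s * q * (b * y * a) = 1 := fun s h => by
    rw [mul_assoc, ← mul_assoc q, ← mul_assoc q, hb, one_mul, mul_assoc, ← mul_assoc s, h, one_mul, ha]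
  ⟨_, _, _, this s h, this e k, rfl⟩

theorem dq_pow {t u y : M} (ht : t * y = 1) (hv : u * u * t * u * y = 1) (hu : Ri u) (k m : ℕ) :
    Dq (t ^ k * t ^ k * u ^ m) (u ^ (4 ^ k * m) * (t ^ k * t ^ k)) := by
  have rt : Ri t := ⟨y, ht⟩
  have a : Dq (t * t * u) (u ^ 4 * (t * t)) := by
    have s1 := (Dq.of ht hv).ctx Ri.one (rt.mul hu)
    have s2 := (Dq.of ht hv).ctx (hu.mul hu) ((hu.mul rt).mul hu)
    have s3 := (Dq.of hv ht).ctx ((hu.pow 4).mul rt) Ri.one
    simp only [pow_succ, pow_zero, one_mul, mul_one, mul_assoc] at s1 s2 s3 ⊢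
    exact (s1.trans s2).trans s3
  have b : ∀ m, Dq (t * t * u ^ m) (u ^ (4 * m) * (t * t)) := fun m => by
    induction m with
    | zero => simpa using Dq.refl _
    | succ m ih =>
      have s1 := ih.ctx Ri.one hu
      have s2 := a.ctx (hu.pow (4 * m)) Ri.one
      simp only [pow_succ u m, mul_add, pow_add, one_mul, mul_one, mul_assoc] at s1 s2 ⊢
      exact s1.trans s2
  simp only [← pow_add, ← two_mul]
  induction k with
  | zero => simpa using Dq.refl _
  | succ k ih =>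
    have s1 := ih.ctx (rt.mul rt) Ri.one
    have s2 := (b (4 ^ k * m)).ctx Ri.one (rt.pow (2 * k))
    simp only [mul_add, mul_one, pow_succ' t, pow_succ' 4, one_mul, mul_assoc, show 2 * k + 2 = 2 * k + 1 + 1 from rfl] at s1 s2 ⊢
    exact s1.trans s2
end

def W : List (Fin 3) := [0, 1, 2, 0, 1, 0, 1, 2, 0, 0, 1, 0, 1, 2, 1]

theorem hW : ¬ ∃ u v x : List (Fin 3), u ≠ [] ∧ v ≠ [] ∧ x ≠ [] ∧ W = u ++ v ∧ W = x ++ u := by
  rintro ⟨u, v, x, h1, h2, -, h3, h4⟩
  have l : 15 = u.length + v.length := by simpa [W] using congrArg List.length h3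
  have m : 15 = x.length + u.length := by simpa [W] using congrArg List.length h4
  have := List.length_pos_iff.2 h1
  have := List.length_pos_iff.2 h2
  refine (by decide : ∀ i < 15, 0 < i → W.take i ≠ W.drop (15 - i)) u.length (by omega) (by omega) ?_
  rw [show 15 - u.length = x.length by omega]
  nth_rw 1 [h3]
  rw [h4]
  simp

def gen : Fin 3 → Matrix (Fin 2) (Fin 2) ℚ := ![!![-2, 0; 0, 1], !![0, -1 / 2; -1, 1], !![0, -1; 1, 0]]

def rho : Mo W →* Matrix (Fin 2) (Fin 2) ℚ :=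
  (cg W).lift (FreeMonoid.lift gen) <| Con.conGen_le.2 <| by
    rintro x _ ⟨h, rfl⟩
    rw [h, Con.ker_rel, map_one, FreeMonoid.lift_ofList]
    decide +kernel

theorem rho_mk (l) : rho (mk W l) = (l.map gen).prod := FreeMonoid.lift_ofList ..

theorem rho_t (k : ℕ) : rho (mk W [0] ^ k) = !![(-2) ^ k, 0; 0, 1] := by
  induction k with
  | zero => simp [one_fin_two]
  | succ k ih => rw [pow_succ, map_mul, ih, rho_mk]; simp [pow_succ, gen]

theorem rho_u (k : ℕ) : rho (mk W [0, 1, 0, 1, 2] ^ k) = !![1, (k : ℚ); 0, 1] := by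
  have : rho (mk W [0, 1, 0, 1, 2]) = !![1, 1; 0, 1] := by rw [rho_mk]; decide +kernel
  induction k with
  | zero => simp [one_fin_two]
  | succ k ih => rw [pow_succ, map_mul, ih, this]; simp [add_comm]

theorem rho_f : rho (mk W [0, 1, 2]) = !![1, 0; 1, 1] := by rw [rho_mk]; decide +kernel

theorem und : ¬ ComputablePred fun E : List (List (Fin 3 ⊕ ℕ) × List (Fin 3 ⊕ ℕ)) => ∃ σ : ℕ → Mo W, ∀ e ∈ E,
    (e.1.map (Sum.elim (fun a => mk W [a]) σ)).prod = (e.2.map (Sum.elim (fun a => mk W [a]) σ)).prod := fun h => by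
  have r : ∀ i < 15, Rw W (W.take i) := fun i h => by
    simpa using Rw.nil.app (List.take_append_drop i W) (by simpa [W] using h)
  have ru : Rw W [0, 1, 0, 1, 2] := (r 2 (by simp)).append (r 3 (by simp))
  have eq : ∀ {γ} {f g : (γ → Mo W) → Mo W}, TD (fun a => mk W [a]) f → TD (fun a => mk W [a]) g →
      SD (fun a => mk W [a]) (fun _ : Unit => Eq) fun v => f v = g v := SD.atom ()
  have tw : ∀ {γ} l, TD (fun a => mk W [a]) fun _ : γ → Mo W => mk W l := fun l =>
    ⟨l.map .inl, fun v => by induction l <;> simp_all [ev]; exacts [rfl, rfl]⟩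
  refine und_exp (c := fun a => mk W [a]) (rel := fun _ : Unit => Eq) () (fun _ _ => .rfl) [0, 1, 0, 1, 2] [0]
    (a := mk W [0, 1, 0, 1, 2]) (b := mk W [0]) rfl rfl (fun m n e => ?_)
    (.of_iff ?_ fun v => pow_iff hW (by simp [W]) ru (by simp) (by decide) (v ()))
    (.of_iff ?_ fun v => pow_iff hW (by simp [W]) (r 1 (by simp)) (by simp [W]) (by decide) (v ())) (q := 4) (by simp)
    (P := fun z x y => Cj (z * z * x * mk W [0, 1, 2]) (y * (z * z) * mk W [0, 1, 2])) ?_ (fun k m n => ⟨?_, ?_⟩) ?_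
  · simpa [rho_u] using congrArg rho e
  · repeat' first | apply SD.ex | apply SD.and | apply eq | apply TD.var | apply TD.mul | apply TD.one | apply tw
  · repeat' first | apply SD.ex | apply SD.and | apply eq | apply TD.var | apply TD.mul | apply TD.one | apply tw
  · unfold Cj
    repeat' first | apply SD.ex | apply SD.and | apply eq | apply TD.var | apply TD.mul | apply TD.one | apply tw
  · rintro ⟨x, x', y, h1, h2, h3⟩
    have a := congrArg rho h1
    have c := congrArg (fun z => (rho (z * y)).trace) h3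
    simp only [map_mul, map_one] at a
    rw [mul_assoc, h2, mul_one, mul_assoc x, map_mul rho x, trace_mul_comm, map_mul _ _ y, mul_assoc _ (rho y), mul_eq_one_comm.1 a,
      mul_one] at c
    simp [rho_t, rho_u, rho_f, trace_fin_two, ← mul_pow] at c
    exact_mod_cast (by norm_num at c; linarith : (n : ℚ) = 4 ^ k * m)
  · rintro rfl
    have y : mk W [0, 1] * mk W (W.drop 2) = 1 := mk_w W
    have := dq_pow (t := mk W [0]) (u := mk W [0, 1, 0, 1, 2]) (y := mk W (W.drop 1)) (mk_w W) ?_ ru.rinv k m 1 _ .one (r 3 (by simp)).rinv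
    · rwa [one_mul, one_mul] at this
    · rw [← y, ← mul_one (mk W [0, 1]), ← mk_w W]
      rfl
  · obtain ⟨f, hf, e⟩ := ComputablePred.computable_iff.1 h
    refine ComputablePred.computable_iff.2 ⟨_, hf.comp (Primrec.list_map .id (Primrec.snd.comp .snd).to₂).to_comp, funext fun E => ?_⟩
    rw [← congrFun e]
    simp only [Sol, ev, List.forall_mem_map, id]

end Pool.Agent.H.MP_cbaa56_al
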